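import Pool.Agent.Helper15.AB.GoalsG

/-!
# PROJECT AB (MP_1ef41b_an), packet GRD: gradients of two defining functions are proportional.
-/

open Filter Topology

noncomputable section

namespace Pool.Agent.Helper90.AB

open Pool.Agent.Helper24.AB Pool.Agent.Helper15.AB

section

variable {E : Type*} [NormedAddCommGroup E] [NormedSpace ℝ E]

theorem grd_key (r R : E → ℝ) (P : E) (hr : DifferentiableAt ℝ r P) (hR : DifferentiableAt ℝ R P)
    (hrP : r P = 0) (hRP : R P = 0) (hsub : ∀ᶠ Q in 𝓝 P, r Q < 0 → R Q ≤ 0) (v : E)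
    (hv : fderiv ℝ r P v < 0) : fderiv ℝ R P v ≤ 0 := by
  have T1 := (hr.hasFDerivAt.hasLineDerivAt v).tendsto_slope_zero_right
  have T2 := (hR.hasFDerivAt.hasLineDerivAt v).tendsto_slope_zero_right
  have hpath : Tendsto (fun t : ℝ => P + t • v) (𝓝[>] 0) (𝓝 P) := by
    have h : Continuous (fun t : ℝ => P + t • v) := by fun_prop
    have h1 := (h.tendsto 0).mono_left (nhdsWithin_le_nhds (s := Set.Ioi (0 : ℝ)))
    simpa using h1
  refine le_of_tendsto T2 ?_
  filter_upwards [T1.eventually_lt_const hv, hpath.eventually hsub, self_mem_nhdsWithin]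
    with t h1 h2 ht
  have ht' : 0 < t := ht
  have hinv : 0 < t⁻¹ := inv_pos.2 ht'
  rw [hrP, sub_zero, smul_eq_mul] at h1
  rw [hRP, sub_zero, smul_eq_mul]
  have h3 : r (P + t • v) < 0 := by
    by_contra hcon
    push Not at hcon
    have := mul_nonneg hinv.le hcon
    linarith
  have h4 := h2 h3
  exact mul_nonpos_of_nonneg_of_nonpos hinv.le h4

theorem grd_gen (r R : E → ℝ) (P : E) (hr : DifferentiableAt ℝ r P) (hR : DifferentiableAt ℝ R P)
    (hrP : r P = 0) (hRP : R P = 0) (ha : fderiv ℝ r P ≠ 0) (hb : fderiv ℝ R P ≠ 0)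
    (hsub : ∀ᶠ Q in 𝓝 P, r Q < 0 → R Q ≤ 0) :
    ∃ c : ℝ, 0 < c ∧ fderiv ℝ R P = c • fderiv ℝ r P := by
  have key := grd_key r R P hr hR hrP hRP hsub
  generalize fderiv ℝ r P = a at *
  generalize fderiv ℝ R P = b at *
  obtain ⟨u, hu⟩ : ∃ u, a u ≠ 0 := by
    by_contra hcon
    push Not at hcon
    exact ha (ContinuousLinearMap.ext hcon)
  obtain ⟨v0, hv0⟩ : ∃ v0, a v0 = -1 := by
    refine ⟨(-(a u)⁻¹) • u, ?_⟩
    rw [map_smul, smul_eq_mul]
    field_simp
  have hker : ∀ w, a w = 0 → b w = 0 := by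
    intro w hw
    have h1 : ∀ s : ℝ, b v0 + s * b w ≤ 0 := by
      intro s
      have h2 := key (v0 + s • w) (by
        rw [map_add, map_smul, hw, hv0]
        norm_num)
      rw [map_add, map_smul, smul_eq_mul] at h2
      exact h2
    by_contra hne
    have h3 := h1 ((1 - b v0) / b w)
    rw [div_mul_cancel₀ _ hne] at h3
    linarith
  have hform : ∀ v, b v = (-(b v0)) * a v := by
    intro v
    have h1 := hker (v + (a v) • v0) (by
      rw [map_add, map_smul, hv0, smul_eq_mul]
      ring)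
    rw [map_add, map_smul, smul_eq_mul] at h1
    linarith
  have hc0 : 0 ≤ -(b v0) := by
    have := key v0 (by rw [hv0]; norm_num)
    linarith
  refine ⟨-(b v0), ?_, ?_⟩
  · rcases hc0.lt_or_eq with h | h
    · exact h
    · exfalso
      apply hb
      ext v
      rw [hform v, ← h]
      simp
  · ext v
    rw [hform v]
    simp

end

theorem grd : S_GRD := by
  intro r R P hr hR hrP hRP ha hb hsub
  exact grd_gen r R P hr hR hrP hRP ha hb hsub

end Pool.Agent.Helper90.AB
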