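import Pool.Agent.Helper24.AB.NT.Goals

/-!
# PROJECT AB (MP_1ef41b_an), packet REC: the three term recurrence.
-/

noncomputable section

namespace Pool.Agent.Helper90.AB

open Pool.Agent.Helper24.AB

theorem lam_sq : lam ^ 2 = 3 * lam - 1 := by
  have h : Real.sqrt 5 ^ 2 = 5 := Real.sq_sqrt (by norm_num)
  unfold lam
  nlinarith

theorem rec_key (x : ℝ) (k : ℕ) :
    ((dk x k : ℤ) : ℝ) = -((x * lam ^ (k + 2) - (nk x (k + 2) : ℝ))
      - 3 * (x * lam ^ (k + 1) - (nk x (k + 1) : ℝ)) + (x * lam ^ k - (nk x k : ℝ))) := by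
  have h1 : x * lam ^ (k + 2) = x * lam ^ k * (3 * lam - 1) := by
    rw [← lam_sq]; ring
  have h2 : x * lam ^ (k + 1) = x * lam ^ k * lam := by ring
  rw [h1, h2]
  unfold dk
  push_cast
  ring

theorem rec : S_REC := by
  intro x k
  have key := rec_key x k
  have e0 : |x * lam ^ k - (nk x k : ℝ)| ≤ 1 / 2 := abs_sub_round _
  have e1 : |x * lam ^ (k + 1) - (nk x (k + 1) : ℝ)| ≤ 1 / 2 := abs_sub_round _
  have e2 : |x * lam ^ (k + 2) - (nk x (k + 2) : ℝ)| ≤ 1 / 2 := abs_sub_round _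
  constructor
  · rw [abs_le] at e0 e1 e2
    have h1 : ((dk x k : ℤ) : ℝ) < 3 := by rw [key]; linarith [e0.1, e1.2, e2.1]
    have h2 : (-3 : ℝ) < ((dk x k : ℤ) : ℝ) := by rw [key]; linarith [e0.2, e1.1, e2.2]
    have h3 : dk x k < 3 := by exact_mod_cast h1
    have h4 : -3 < dk x k := by exact_mod_cast h2
    rw [abs_le]
    constructor <;> omega
  · intro d0 d1 d2
    have f0 : |x * lam ^ k - (nk x k : ℝ)| < 1 / 10 := d0
    have f1 : |x * lam ^ (k + 1) - (nk x (k + 1) : ℝ)| < 1 / 10 := d1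
    have f2 : |x * lam ^ (k + 2) - (nk x (k + 2) : ℝ)| < 1 / 10 := d2
    rw [abs_lt] at f0 f1 f2
    have h1 : ((dk x k : ℤ) : ℝ) < 1 := by rw [key]; linarith [f0.1, f1.2, f2.1]
    have h2 : (-1 : ℝ) < ((dk x k : ℤ) : ℝ) := by rw [key]; linarith [f0.2, f1.1, f2.2]
    have h3 : dk x k < 1 := by exact_mod_cast h1
    have h4 : -1 < dk x k := by exact_mod_cast h2
    omega

end Pool.Agent.Helper90.AB
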