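import Pool.Agent.Helper95.AB.GoalsW

/-!
# PROJECT AB (MP_1ef41b_an), packet CELLB: a cell with curvature on every row.
-/

open MeasureTheory Set Filter Topology
open scoped ContDiff

noncomputable section

namespace Pool.Agent.Helper90.AB

open Pool.Agent.Helper24.AB Pool.Agent.Helper95.AB

theorem mk_eq90 (s t : ℝ) : (⟨s, t⟩ : ℂ) = (s : ℂ) + (t : ℂ) * Complex.I := by
  apply Complex.ext <;> simp

theorem isOpen_strip90 (a : ℝ) : IsOpen (strip a) :=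
  isOpen_lt (continuous_abs.comp Complex.continuous_re) continuous_const

theorem continuous_mk90 : Continuous (fun p : ℝ × ℝ => (⟨p.1, p.2⟩ : ℂ)) := by
  have h : (fun p : ℝ × ℝ => (⟨p.1, p.2⟩ : ℂ)) = fun p => (p.1 : ℂ) + (p.2 : ℂ) * Complex.I :=
    funext fun p => mk_eq90 _ _
  rw [h]
  fun_prop

/-- the interval of the real parts -/
abbrev SI (x : ℂ) (ρ : ℝ) : Set ℝ := Ico (x.re - ρ / 2) (x.re + ρ / 2)
/-- the interval of the imaginary parts -/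
abbrev TI (x : ℂ) (ρ : ℝ) : Set ℝ := Ico (x.im - ρ / 2) (x.im + ρ / 2)

theorem mem_strip90 {a ρ : ℝ} {x : ℂ} (ha : |x.re| + ρ / 2 < a) {s : ℝ}
    (h1 : x.re - ρ / 2 ≤ s) (h2 : s ≤ x.re + ρ / 2) (t : ℝ) : (⟨s, t⟩ : ℂ) ∈ strip a := by
  change |s| < a
  rw [abs_lt]
  have h3 := le_abs_self x.re
  have h4 := neg_abs_le x.re
  constructor <;> linarith

theorem integrable90 {a ρ : ℝ} {x : ℂ} (ha : |x.re| + ρ / 2 < a) {F : ℂ → ℝ}
    (hF : ContinuousOn F (strip a)) :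
    Integrable (fun p : ℝ × ℝ => F ⟨p.1, p.2⟩)
      ((volume.restrict (SI x ρ)).prod (volume.restrict (TI x ρ))) := by
  rw [Measure.prod_restrict, ← Measure.volume_eq_prod]
  have hK : IsCompact (Icc (x.re - ρ / 2) (x.re + ρ / 2) ×ˢ Icc (x.im - ρ / 2) (x.im + ρ / 2)) :=
    isCompact_Icc.prod isCompact_Icc
  have hc : ContinuousOn (fun p : ℝ × ℝ => F ⟨p.1, p.2⟩)
      (Icc (x.re - ρ / 2) (x.re + ρ / 2) ×ˢ Icc (x.im - ρ / 2) (x.im + ρ / 2)) := by
    refine hF.comp continuous_mk90.continuousOn ?_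
    intro p hp
    exact mem_strip90 ha hp.1.1 hp.1.2 p.2
  exact (hc.integrableOn_compact hK).mono_set
    (Set.prod_mono Ico_subset_Icc_self Ico_subset_Icc_self)

theorem fubini90 {a ρ : ℝ} {x : ℂ} (ha : |x.re| + ρ / 2 < a) {F : ℂ → ℝ}
    (hF : ContinuousOn F (strip a)) :
    ∫ w in sq x ρ, F w = ∫ t in TI x ρ, ∫ s in SI x ρ, F ⟨s, t⟩ := by
  have h1 : sq x ρ = Complex.measurableEquivRealProd ⁻¹' (SI x ρ ×ˢ TI x ρ) := by
    ext w
    constructor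
    · rintro ⟨h1, h2, h3, h4⟩
      exact ⟨⟨h1, h2⟩, ⟨h3, h4⟩⟩
    · rintro ⟨⟨h1, h2⟩, ⟨h3, h4⟩⟩
      exact ⟨h1, h2, h3, h4⟩
  have h2 := Complex.volume_preserving_equiv_real_prod.setIntegral_preimage_emb
    Complex.measurableEquivRealProd.measurableEmbedding (fun p : ℝ × ℝ => F ⟨p.1, p.2⟩)
    (SI x ρ ×ˢ TI x ρ)
  rw [h1]
  refine Eq.trans ?_ (h2.trans ?_)
  · rfl
  · rw [Measure.volume_eq_prod, ← Measure.prod_restrict]
    exact integral_prod_symm _ (integrable90 ha hF)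

theorem integrable_row90 {a ρ : ℝ} {x : ℂ} (ha : |x.re| + ρ / 2 < a) {F : ℂ → ℝ}
    (hF : ContinuousOn F (strip a)) :
    IntegrableOn (fun t => ∫ s in SI x ρ, F ⟨s, t⟩) (TI x ρ) :=
  (integrable90 ha hF).integral_prod_right

theorem row_eq90 {ρ : ℝ} (hρ : 0 < ρ) (x : ℂ) (f : ℝ → ℝ) :
    ∫ s in SI x ρ, f s = ∫ s in (x.re - ρ / 2)..(x.re + ρ / 2), f s := by
  rw [intervalIntegral.integral_of_le (by linarith), integral_Ico_eq_integral_Ioo,
    integral_Ioc_eq_integral_Ioo]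

theorem continuousOn_dir90 {a : ℝ} {Φ : ℂ → ℝ} (hΦ : ContDiffOn ℝ ∞ Φ (strip a)) (v : ℂ) :
    ContinuousOn (fun w => fderiv ℝ Φ w v) (strip a) :=
  (hΦ.continuousOn_fderiv_of_isOpen (isOpen_strip90 a) (by simp)).clm_apply continuousOn_const

theorem continuous_dir90 {φ : ℂ → ℂ} (hφ : ContDiff ℝ ∞ φ) (v : ℂ) :
    Continuous (fun w => fderiv ℝ φ w v) :=
  (hφ.continuous_fderiv (by simp)).clm_apply continuous_const

theorem continuousOn_gA90 {a : ℝ} {Φ : ℂ → ℝ} {φ : ℂ → ℂ} (hΦ : ContDiffOn ℝ ∞ Φ (strip a))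
    (hφ : ContDiff ℝ ∞ φ) : ContinuousOn (gA Φ φ) (strip a) := by
  have h1 : ContinuousOn (fun w => dT Φ w) (strip a) := continuousOn_dir90 hΦ _
  have h2 : ContinuousOn (fun w => dS Φ w) (strip a) := continuousOn_dir90 hΦ _
  have h3 : Continuous (fun w => dT φ w) := continuous_dir90 hφ _
  have h4 : Continuous (fun w => dS φ w) := continuous_dir90 hφ _
  have h5 := hφ.continuous
  have e1 : ContinuousOn (fun w => ((dT Φ w : ℝ) : ℂ)) (strip a) :=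
    Complex.continuous_ofReal.comp_continuousOn h1
  have e2 : ContinuousOn (fun w => ((dS Φ w : ℝ) : ℂ)) (strip a) :=
    Complex.continuous_ofReal.comp_continuousOn h2
  unfold gA
  refine ContinuousOn.add ?_ ?_
  · refine ContinuousOn.pow (ContinuousOn.norm ?_) 2
    exact h4.continuousOn.add ((continuousOn_const.mul e1).mul h5.continuousOn)
  · refine ContinuousOn.pow (ContinuousOn.norm ?_) 2
    exact h3.continuousOn.sub ((continuousOn_const.mul e2).mul h5.continuousOn)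

theorem hasDerivAt_row90 {φ : ℂ → ℂ} (hφ : ContDiff ℝ ∞ φ) (t s : ℝ) :
    HasDerivAt (fun s : ℝ => φ ⟨s, t⟩) (dS φ ⟨s, t⟩) s := by
  have h1 : HasDerivAt (fun s : ℝ => (⟨s, t⟩ : ℂ)) 1 s := by
    have h : (fun s : ℝ => (⟨s, t⟩ : ℂ)) = fun s : ℝ => (s : ℂ) + (t : ℂ) * Complex.I :=
      funext fun s => mk_eq90 _ _
    rw [h]
    exact (Complex.ofRealCLM.hasDerivAt (x := s)).add_const _
  have h2 : HasFDerivAt φ (fderiv ℝ φ ⟨s, t⟩) ⟨s, t⟩ :=
    ((hφ.differentiable (by simp)) ⟨s, t⟩).hasFDerivAt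
  exact h2.comp_hasDerivAt s h1

theorem contDiff_row90 {φ : ℂ → ℂ} (hφ : ContDiff ℝ ∞ φ) (t : ℝ) :
    ContDiff ℝ 1 (fun s : ℝ => φ ⟨s, t⟩) := by
  have h : (fun s : ℝ => φ ⟨s, t⟩) = φ ∘ fun s : ℝ => (s : ℂ) + (t : ℂ) * Complex.I := by
    funext s
    change φ _ = φ _
    rw [mk_eq90]
  rw [h]
  have h1 : ContDiff ℝ 1 (fun s : ℝ => (s : ℂ) + (t : ℂ) * Complex.I) :=
    (Complex.ofRealCLM.contDiff (n := 1)).add contDiff_const
  exact (hφ.of_le (by simp)).comp h1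

theorem cellb (hL2 : S_L2) : S_CELLB := by
  intro a c' Φ V φ x ρ hρ hc' hΦ hφ ha hV hVnn hrow
  set α : ℝ := x.re - ρ / 2 with hα
  set β : ℝ := x.re + ρ / 2 with hβ
  have hαβ : α < β := by rw [hα, hβ]; linarith
  have hβα : β - α = ρ := by rw [hα, hβ]; ring
  have hc1 : ContinuousOn (fun w => ‖φ w‖ ^ 2) (strip a) :=
    ((hφ.continuous.norm).pow 2).continuousOn
  have hc2 : ContinuousOn (fun w => V w * ‖φ w‖ ^ 2) (strip a) := hV.mul hc1
  have hc3 : ContinuousOn (gA Φ φ) (strip a) := continuousOn_gA90 hΦ hφ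
  rw [fubini90 ha hc1, fubini90 ha hc2, fubini90 ha hc3, ← integral_const_mul,
    ← integral_const_mul, ← integral_add ((integrable_row90 ha hc2).const_mul _)
      ((integrable_row90 ha hc3).const_mul _)]
  refine setIntegral_mono_on (integrable_row90 ha hc1)
    (((integrable_row90 ha hc2).const_mul _).add ((integrable_row90 ha hc3).const_mul _))
    measurableSet_Ico ?_
  intro t ht
  rw [row_eq90 hρ, row_eq90 hρ, row_eq90 hρ]
  have hseg : ∀ s ∈ Icc α β, (⟨s, t⟩ : ℂ) ∈ strip a := fun s hs => mem_strip90 ha hs.1 hs.2 t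
  have hcomp : ContinuousOn (fun s : ℝ => (⟨s, t⟩ : ℂ)) (Icc α β) :=
    (continuous_mk90.comp (Continuous.prodMk_left t)).continuousOn
  have hVc : ContinuousOn (fun s : ℝ => V ⟨s, t⟩) (Icc α β) := hV.comp hcomp hseg
  have hAc : ContinuousOn (fun s : ℝ => dT Φ ⟨s, t⟩) (Icc α β) :=
    (continuousOn_dir90 hΦ Complex.I).comp hcomp hseg
  have hVnn' : ∀ s ∈ Icc α β, 0 ≤ V ⟨s, t⟩ := by
    have h1 : ∀ s ∈ Ico α β, 0 ≤ V ⟨s, t⟩ := fun s hs =>
      hVnn ⟨s, t⟩ ⟨hs.1, hs.2, ht.1, ht.2⟩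
    intro s hs
    rcases hs.2.lt_or_eq with h | h
    · exact h1 s ⟨hs.1, h⟩
    · have h2 : ContinuousWithinAt (fun s : ℝ => V ⟨s, t⟩) (Ico α β) s :=
        (hVc s hs).mono Ico_subset_Icc_self
      haveI : (𝓝[Ico α β] s).NeBot := by
        rw [h]
        exact right_nhdsWithin_Ico_neBot hαβ
      exact ge_of_tendsto h2 (eventually_nhdsWithin_of_forall h1)
  have key := hL2 α β (fun s => φ ⟨s, t⟩) (fun s => dT Φ ⟨s, t⟩) (fun s => V ⟨s, t⟩) hαβ
    (contDiff_row90 hφ t) hAc (hVc.integrableOn_Icc) hVnn'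
  rw [hβα] at key
  have hv := hrow t ht.1 ht.2
  set v : ℝ := ∫ s in α..β, V ⟨s, t⟩ with hvdef
  set N : ℝ := ∫ s in α..β, ‖φ ⟨s, t⟩‖ ^ 2 with hN
  set W : ℝ := ∫ s in α..β, V ⟨s, t⟩ * ‖φ ⟨s, t⟩‖ ^ 2 with hW
  set G : ℝ := ∫ s in α..β, gA Φ φ ⟨s, t⟩ with hG
  set D : ℝ := ∫ s in α..β, ‖deriv (fun s => φ ⟨s, t⟩) s
    + Complex.I * ((dT Φ ⟨s, t⟩ : ℝ) : ℂ) * φ ⟨s, t⟩‖ ^ 2 with hD
  have hv0 : 0 < v := by
    by_contra hcon
    push Not at hcon
    have := mul_nonpos_of_nonneg_of_nonpos hρ.le hcon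
    linarith
  have hφc : ContinuousOn (fun s : ℝ => φ ⟨s, t⟩) (Icc α β) :=
    hφ.continuous.comp_continuousOn hcomp
  have hW0 : 0 ≤ W := by
    rw [hW]
    refine intervalIntegral.integral_nonneg hαβ.le ?_
    intro s hs
    exact mul_nonneg (hVnn' s hs) (by positivity)
  have hDG : D ≤ G := by
    rw [hD, hG]
    have hd : ∀ s, deriv (fun s => φ ⟨s, t⟩) s = dS φ ⟨s, t⟩ := fun s =>
      (hasDerivAt_row90 hφ t s).deriv
    refine intervalIntegral.integral_mono_on hαβ.le ?_ ?_ ?_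
    · refine ContinuousOn.intervalIntegrable ?_
      rw [uIcc_of_le hαβ.le]
      refine ContinuousOn.pow (ContinuousOn.norm ?_) 2
      refine ContinuousOn.add ?_ ?_
      · exact ((continuous_dir90 hφ 1).comp_continuousOn hcomp).congr (fun s _ => hd s)
      · exact (continuousOn_const.mul (Complex.continuous_ofReal.comp_continuousOn hAc)).mul hφc
    · refine ContinuousOn.intervalIntegrable ?_
      rw [uIcc_of_le hαβ.le]
      exact hc3.comp hcomp hseg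
    · intro s _
      rw [hd]
      unfold gA
      exact le_add_of_nonneg_right (by positivity)
  have h1 : v * N ≤ 2 * ρ * W + 2 * ρ ^ 2 * v * D := key
  have h2 : v * N ≤ 2 * ρ * W + 2 * ρ ^ 2 * v * G := by
    have := mul_le_mul_of_nonneg_left hDG (by positivity : 0 ≤ 2 * ρ ^ 2 * v)
    linarith
  have h3 : 2 * ρ * W ≤ v * (2 * ρ ^ 2 / c' * W) := by
    have h4 : 1 ≤ ρ * v / c' := by
      rw [le_div_iff₀ hc']
      linarith
    have h5 : 0 ≤ 2 * ρ * W := by positivity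
    calc 2 * ρ * W = 2 * ρ * W * 1 := by ring
      _ ≤ 2 * ρ * W * (ρ * v / c') := mul_le_mul_of_nonneg_left h4 h5
      _ = v * (2 * ρ ^ 2 / c' * W) := by ring
  have h6 : v * N ≤ v * (2 * ρ ^ 2 / c' * W + 2 * ρ ^ 2 * G) := by
    calc v * N ≤ 2 * ρ * W + 2 * ρ ^ 2 * v * G := h2
      _ ≤ v * (2 * ρ ^ 2 / c' * W) + 2 * ρ ^ 2 * v * G := by linarith
      _ = v * (2 * ρ ^ 2 / c' * W + 2 * ρ ^ 2 * G) := by ring
  exact le_of_mul_le_mul_left h6 hv0

end Pool.Agent.Helper90.AB
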